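import Pool.Agent.V7H20.ZT.Ord

/-!
Translates of a subvariety of the torus along a rational curve as subsets of the members of a family
of systems of Laurent polynomials, and the tropicalizations of the family (helper file).
-/

set_option autoImplicit false

namespace Pool.Agent.V7H20.ZT

open Pool.Agent.V7H20.ZF MvPolynomial
open Pool.Agent.H173R3.ZT (iv exists_dep exists_mem_inf)
open Pool.Agent.Y199.ZF (Trop)

variable {n : ℕ}

/-- the exponent vector -/
noncomputable def back (β : Fin n → ℤ) : Fin n →₀ ℕ :=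
  Finsupp.equivFunOnFinite.symm fun i => (β i).toNat

theorem back_iv (α : Fin n →₀ ℕ) : back (iv α) = α := by
  ext i
  simp [back, iv]

theorem iv_injective : Function.Injective (iv : (Fin n →₀ ℕ) → (Fin n → ℤ)) := fun a b h => by
  rw [← back_iv a, ← back_iv b, h]

/-- the coefficient -/
noncomputable def cf (f : MvPolynomial (Fin n) ℂ) (N : ℕ) (p q : Fin n → Polynomial ℂ)
    (β : Fin n → ℤ) : Polynomial ℂ :=
  Polynomial.C (f.coeff (back β)) *
    ∏ i, (q i ^ (β i).toNat * p i ^ (N - (β i).toNat))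

theorem cf_ne (f : MvPolynomial (Fin n) ℂ) (N : ℕ) (p q : Fin n → Polynomial ℂ)
    (hpq : ∀ i, p i ≠ 0 ∧ q i ≠ 0) {α : Fin n →₀ ℕ} (hα : α ∈ f.support) :
    cf f N p q (iv α) ≠ 0 := by
  rw [cf, back_iv]
  refine mul_ne_zero ?_ (Finset.prod_ne_zero_iff.2 fun i _ =>
    mul_ne_zero (pow_ne_zero _ (hpq i).2) (pow_ne_zero _ (hpq i).1))
  rw [Ne, Polynomial.C_eq_zero]
  exact mem_support_iff.1 hα

theorem ord_cf (f : MvPolynomial (Fin n) ℂ) (N : ℕ) (p q : Fin n → Polynomial ℂ)
    (hpq : ∀ i, p i ≠ 0 ∧ q i ≠ 0) {α : Fin n →₀ ℕ} (hα : α ∈ f.support) (hN : ∀ i, α i ≤ N)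
    (a : Option ℂ) : ord (cf f N p q (iv α)) a =
      N * ∑ i, ord (p i) a - ∑ i, (α i : ℤ) * (ord (p i) a - ord (q i) a) := by
  have h1 : ∀ i, q i ^ (iv α i).toNat * p i ^ (N - (iv α i).toNat) ≠ 0 := fun i =>
    mul_ne_zero (pow_ne_zero _ (hpq i).2) (pow_ne_zero _ (hpq i).1)
  have h2 : (Polynomial.C (f.coeff α) : Polynomial ℂ) ≠ 0 := by
    rw [Ne, Polynomial.C_eq_zero]
    exact mem_support_iff.1 hα
  rw [cf, back_iv, ord_mul h2 (Finset.prod_ne_zero_iff.2 fun i _ => h1 i), ord_C, zero_add,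
    ord_prod _ _ fun i _ => h1 i, Finset.mul_sum, ← Finset.sum_sub_distrib]
  refine Finset.sum_congr rfl fun i _ => ?_
  rw [ord_mul (pow_ne_zero _ (hpq i).2) (pow_ne_zero _ (hpq i).1), ord_pow (hpq i).2,
    ord_pow (hpq i).1]
  have h3 : (iv α i).toNat = α i := by simp [iv]
  rw [h3, Nat.cast_sub (hN i)]
  ring

theorem eval_sum_cf (f : MvPolynomial (Fin n) ℂ) (N : ℕ) (p q : Fin n → Polynomial ℂ)
    (hN : ∀ α ∈ f.support, ∀ i, α i ≤ N) (t : ℂ)
    (ht : ∀ i, (p i).eval t ≠ 0 ∧ (q i).eval t ≠ 0) (x : Fin n → ℂ) (hf : eval x f = 0) :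
    ∑ β ∈ f.support.image iv, (cf f N p q β).eval t *
      ∏ i, ((p i).eval t / (q i).eval t * x i) ^ β i = 0 := by
  rw [Finset.sum_image fun a _ b _ h => iv_injective h]
  have h1 : ∀ α ∈ f.support, (cf f N p q (iv α)).eval t *
      ∏ i, ((p i).eval t / (q i).eval t * x i) ^ iv α i =
      (∏ i, (p i).eval t ^ N) * (f.coeff α * ∏ i, x i ^ α i) := by
    intro α hα
    rw [cf, back_iv, Polynomial.eval_mul, Polynomial.eval_C, Polynomial.eval_prod, mul_assoc,
      ← Finset.prod_mul_distrib, mul_left_comm, ← Finset.prod_mul_distrib]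
    congr 1
    refine Finset.prod_congr rfl fun i _ => ?_
    have h3 : (iv α i).toNat = α i := by simp [iv]
    have h4 : iv α i = (α i : ℤ) := rfl
    rw [h3, h4, zpow_natCast, Polynomial.eval_mul, Polynomial.eval_pow, Polynomial.eval_pow,
      mul_pow, div_pow]
    have h5 : (q i).eval t ^ α i ≠ 0 := pow_ne_zero _ (ht i).2
    have h6 : (p i).eval t ^ (N - α i) * (p i).eval t ^ α i = (p i).eval t ^ N := by
      rw [← pow_add, Nat.sub_add_cancel (hN α hα i)]
    rw [← h6]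
    field_simp
  rw [Finset.sum_congr rfl h1, ← Finset.mul_sum, ← eval_eq', hf, mul_zero]

/-- The system of Laurent polynomials satisfied by the translates of a variety, and the position of
its tropicalizations. -/
theorem exists_system {d : ℕ} (P : Ideal (MvPolynomial (Fin n) ℂ)) [P.IsPrime]
    (hd : Algebra.trdeg ℂ (MvPolynomial (Fin n) ℂ ⧸ P) = d) :
    ∃ (κ m : ℕ) (A : Fin m → Finset (Fin n → ℤ)), (∀ j, (A j).Nonempty) ∧
      ∀ p q : Fin n → Polynomial ℂ, (∀ i, p i ≠ 0 ∧ q i ≠ 0) →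
      ∃ c : Fin m → (Fin n → ℤ) → Polynomial ℂ, (∀ j, ∀ β ∈ A j, c j β ≠ 0) ∧
      (∀ t : ℂ, (∀ i, (p i).eval t ≠ 0 ∧ (q i).eval t ≠ 0) → ∀ x : Fin n → ℂ,
        (∀ f ∈ P, eval x f = 0) → ∀ j, ∑ β ∈ A j, (c j β).eval t *
          ∏ i, ((p i).eval t / (q i).eval t * x i) ^ β i = 0) ∧
      ∀ (ι : Type) [Fintype ι] (a : ι → Option ℂ) (τ : ℕ), κ * τ < Fintype.card ι →
        (∀ χ : Fin n → ℤ, χ ≠ 0 →
          {l | ∑ i, χ i * (ord (p i) (a l) - ord (q i) (a l)) = 0}.ncard ≤ τ) →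
        ∀ L : Submodule ℚ (Fin n → ℚ), Module.finrank ℚ L + d < n →
          ∃ l, ∀ w ∈ L, w ∉ Trop A fun j β => ord (c j β) (a l) := by
  classical
  choose f hfP hf0 hfJ using fun J : {J : Finset (Fin n) // J.card = d + 1} =>
    exists_dep P hd J.1 J.2
  set m := Fintype.card {J : Finset (Fin n) // J.card = d + 1} with hm
  let e : Fin m ≃ {J : Finset (Fin n) // J.card = d + 1} := (Fintype.equivFin _).symm
  set N : ℕ := Finset.univ.sup fun J => (f J).support.sup fun α => Finset.univ.sup fun i => α i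
    with hNdef
  have hN : ∀ J, ∀ α ∈ (f J).support, ∀ i, α i ≤ N := by
    intro J α hα i
    have h1 : α i ≤ Finset.univ.sup fun i => α i :=
      Finset.le_sup (f := fun i => α i) (Finset.mem_univ i)
    have h2 : (Finset.univ.sup fun i => α i) ≤
        (f J).support.sup fun α => Finset.univ.sup fun i => α i :=
      Finset.le_sup (f := fun α : Fin n →₀ ℕ => Finset.univ.sup fun i => α i) hα
    have h3 := Finset.le_sup (f := fun J => (f J).support.sup fun α => Finset.univ.sup fun i => α i)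
      (Finset.mem_univ J)
    exact (h1.trans h2).trans h3
  refine ⟨(Fintype.piFinset fun J => (f J).support ×ˢ (f J).support).card, m,
    fun j => (f (e j)).support.image iv, fun j => ?_, fun p q hpq =>
    ⟨fun j β => cf (f (e j)) N p q β, ?_, ?_, ?_⟩⟩
  · rw [Finset.image_nonempty, Finset.nonempty_iff_ne_empty, Ne, MvPolynomial.support_eq_empty]
    exact hf0 _
  · intro j β hβ
    obtain ⟨α, hα, rfl⟩ := Finset.mem_image.1 hβ
    exact cf_ne _ N p q hpq hα
  · intro t ht x hx j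
    exact eval_sum_cf (f (e j)) N p q (hN _) t ht x (hx _ (hfP _))
  · intro ι _ a τ hτ hχ L hL
    by_contra hcon
    push Not at hcon
    choose w hwL hwT using hcon
    -- pairs
    have h1 : ∀ l : ι, ∀ J : {J : Finset (Fin n) // J.card = d + 1},
        ∃ r : (Fin n →₀ ℕ) × (Fin n →₀ ℕ), r ∈ (f J).support ×ˢ (f J).support ∧ r.1 ≠ r.2 ∧
          ∑ i, ((r.1 i : ℚ) - (r.2 i : ℚ)) *
            (w l i - ((ord (p i) (a l) - ord (q i) (a l) : ℤ) : ℚ)) = 0 := by
      intro l J
      obtain ⟨b1, hb1, b2, hb2, hne, heq, -⟩ := hwT l (e.symm J)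
      beta_reduce at hb1 hb2 heq
      rw [Equiv.apply_symm_apply] at hb1 hb2
      obtain ⟨α1, hα1, rfl⟩ := Finset.mem_image.1 hb1
      obtain ⟨α2, hα2, rfl⟩ := Finset.mem_image.1 hb2
      refine ⟨(α1, α2), Finset.mk_mem_product hα1 hα2, fun h => hne (by rw [show α1 = α2 from h]),
        ?_⟩
      rw [Equiv.apply_symm_apply] at heq
      rw [ord_cf _ N p q hpq hα1 (hN _ _ hα1), ord_cf _ N p q hpq hα2 (hN _ _ hα2)] at heq
      have h2 : ∀ α : Fin n →₀ ℕ, ∑ i, ((iv α i : ℤ) : ℚ) * w l i = ∑ i, (α i : ℚ) * w l i :=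
        fun α => Finset.sum_congr rfl fun i _ => by simp [iv]
      rw [h2, h2] at heq
      push_cast at heq
      have h3 : ∑ i, ((α1 i : ℚ) - (α2 i : ℚ)) *
            (w l i - ((ord (p i) (a l) - ord (q i) (a l) : ℤ) : ℚ)) =
          (∑ i, (α1 i : ℚ) * w l i - ∑ i, (α2 i : ℚ) * w l i) -
          (∑ i, (α1 i : ℚ) * ((ord (p i) (a l) : ℚ) - (ord (q i) (a l) : ℚ)) -
          ∑ i, (α2 i : ℚ) * ((ord (p i) (a l) : ℚ) - (ord (q i) (a l) : ℚ))) := by
        rw [← Finset.sum_sub_distrib, ← Finset.sum_sub_distrib, ← Finset.sum_sub_distrib]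
        refine Finset.sum_congr rfl fun i _ => ?_
        push_cast
        ring
      simp only at h3 ⊢
      rw [h3]
      linarith
    choose r hr1 hr2 hr3 using h1
    obtain ⟨s, hs, hcard⟩ := Finset.exists_lt_card_fiber_of_mul_lt_card_of_maps_to
      (s := (Finset.univ : Finset ι))
      (t := Fintype.piFinset fun J => (f J).support ×ˢ (f J).support)
      (f := r) (n := τ)
      (fun i _ => Fintype.mem_piFinset.2 fun J => hr1 i J)
      (by rw [Finset.card_univ]; exact hτ)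
    set I := (Finset.univ : Finset ι).filter fun i => r i = s with hI
    have hIK : ∀ i ∈ I, r i = s := fun i hi => by
      rw [hI, Finset.mem_filter] at hi
      exact hi.2
    have hIne : I.Nonempty := Finset.card_pos.1 (by omega)
    obtain ⟨i₀, hi₀⟩ := hIne
    set D : Submodule ℤ (Fin n → ℤ) := Submodule.span ℤ (Set.range fun J => iv (s J).1 - iv (s J).2)
      with hD
    have hD2 : ∀ J : Finset (Fin n), J.card = d + 1 →
        ∃ χ ∈ D, χ ≠ 0 ∧ ∀ j, j ∉ J → χ j = 0 := by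
      intro J hJ
      have h3 := hr1 i₀ ⟨J, hJ⟩
      have h4 := hr2 i₀ ⟨J, hJ⟩
      rw [hIK i₀ hi₀] at h3 h4
      rw [Finset.mem_product] at h3
      refine ⟨iv (s ⟨J, hJ⟩).1 - iv (s ⟨J, hJ⟩).2, Submodule.subset_span ⟨⟨J, hJ⟩, rfl⟩, ?_, ?_⟩
      · intro h5
        exact h4 (iv_injective (sub_eq_zero.1 h5))
      · intro j hj
        have h5 := hfJ ⟨J, hJ⟩ _ h3.1 j hj
        have h6 := hfJ ⟨J, hJ⟩ _ h3.2 j hj
        simp [iv, h5, h6]
    have hrank : d + 1 ≤ Module.finrank ℤ (orth L) := by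
      have := le_finrank_orth L
      omega
    obtain ⟨χ, hχΛ, hχD, hχ0⟩ := exists_mem_inf D (orth L) hD2 hrank
    have hDw : ∀ l ∈ I, ∀ χ ∈ D, ∑ i, (χ i : ℚ) *
        (w l i - ((ord (p i) (a l) - ord (q i) (a l) : ℤ) : ℚ)) = 0 := by
      intro l hl χ hχD
      rw [hD] at hχD
      induction hχD using Submodule.span_induction with
      | mem x hx =>
        obtain ⟨J, rfl⟩ := hx
        have h3 := hr3 l J
        rw [hIK l hl] at h3
        rw [← h3]
        refine Finset.sum_congr rfl fun i _ => ?_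
        simp [iv]
      | zero => simp
      | add x y _ _ hx hy =>
        rw [← add_zero (0 : ℚ)]
        nth_rewrite 1 [← hx]
        rw [← hy, ← Finset.sum_add_distrib]
        refine Finset.sum_congr rfl fun i _ => ?_
        rw [Pi.add_apply]
        push_cast
        ring
      | smul c x _ hx =>
        rw [← mul_zero (c : ℚ), ← hx, Finset.mul_sum]
        refine Finset.sum_congr rfl fun i _ => ?_
        rw [Pi.smul_apply, smul_eq_mul]
        push_cast
        ring
    have hsub : (↑I : Set ι) ⊆ {l | ∑ i, χ i * (ord (p i) (a l) - ord (q i) (a l)) = 0} := by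
      intro l hl
      have h3 := hDw l (Finset.mem_coe.1 hl) χ hχD
      have h4 := hχΛ (w l) (hwL l)
      have h5 : ∑ i, (χ i : ℚ) * ((ord (p i) (a l) - ord (q i) (a l) : ℤ) : ℚ) = 0 := by
        have h6 : ∑ i, (χ i : ℚ) * (w l i - ((ord (p i) (a l) - ord (q i) (a l) : ℤ) : ℚ)) =
            ∑ i, (χ i : ℚ) * w l i -
            ∑ i, (χ i : ℚ) * ((ord (p i) (a l) - ord (q i) (a l) : ℤ) : ℚ) := by
          rw [← Finset.sum_sub_distrib]
          exact Finset.sum_congr rfl fun i _ => by ring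
        rw [h6, h4, zero_sub, neg_eq_zero] at h3
        exact h3
      change ∑ i, χ i * (ord (p i) (a l) - ord (q i) (a l)) = 0
      exact_mod_cast h5
    have h6 := Set.ncard_le_ncard hsub (Set.toFinite _)
    rw [Set.ncard_coe_finset] at h6
    have h7 := hχ χ hχ0
    omega

end Pool.Agent.V7H20.ZT
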