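import Pool.Agent.V7H20.ZT.Comb
import Pool.Agent.N712.ZT.Sets

/-!
Counting the characters of order zero, and dimensions (helper file).
-/

set_option autoImplicit false

namespace Pool.Agent.V7H20.ZT

open Pool.Agent.V7H20.ZF
open Pool.Agent.Results.MP_b7926e_nt.NoAtypical (idealOf dim)

variable {n : ℕ}

theorem ncard_sub {M : ℕ} (I : Finset (Fin M)) (S : Fin M → Prop) (τ : ℕ)
    (h : {l | S l}.ncard ≤ τ) : {l : {l // l ∉ I} | S l}.ncard ≤ τ := by
  refine le_trans ?_ h
  rw [← Set.ncard_image_of_injective _ (Subtype.val_injective (p := fun l => l ∉ I))]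
  refine Set.ncard_le_ncard ?_ (Set.toFinite _)
  rintro _ ⟨l, hl, rfl⟩
  exact hl

theorem card_sub {M : ℕ} (I : Finset (Fin M)) :
    Fintype.card {l // l ∉ I} = M - I.card := by
  rw [Fintype.card_subtype_compl]
  simp

theorem dim_lt (V : Set (Fin n → ℂ)) : dim V < Cardinal.aleph0 :=
  trdeg_lt_aleph0_of_finiteType

/-- The conclusion of the criterion for the members of a family, in terms of the dimension of `V`. -/
theorem dim_bound {V B : Set (Fin n → ℂ)} {d : ℕ} (hd : dim V = d)
    (Λ : Submodule ℤ (Fin n → ℤ))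
    (h : dim B + ((n - d : ℕ) : Cardinal) + (Module.finrank ℤ Λ : Cardinal) ≤ (n : Cardinal)) :
    dim B + (Module.finrank ℤ Λ : Cardinal) ≤ dim V := by
  obtain ⟨b, hb⟩ := Cardinal.lt_aleph0.1 (dim_lt B)
  rw [hb] at h ⊢
  rw [hd]
  have h1 : b + (n - d) + Module.finrank ℤ Λ ≤ n := by exact_mod_cast h
  have h2 : b + Module.finrank ℤ Λ ≤ d := by omega
  exact_mod_cast h2

end Pool.Agent.V7H20.ZT
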