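import Pool.Agent.V7H20.ZF.Base
import Pool.Agent.Y199.ZF.Crit
import Pool.Agent.H173R3.ZT.Fam
import Pool.Agent.H173R3.ZT.Latt
import Pool.Agent.Results.MP_b7926e_nt.NoAtypical

/-!
Orders of products of polynomials, and lattices orthogonal to a linear space (helper file).
-/

set_option autoImplicit false

namespace Pool.Agent.V7H20.ZT

open Pool.Agent.V7H20.ZF

theorem ord_mul {f g : Polynomial ℂ} (hf : f ≠ 0) (hg : g ≠ 0) (a : Option ℂ) :
    ord (f * g) a = ord f a + ord g a := by
  rcases a with _ | a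
  · change -(((f * g).natDegree : ℕ) : ℤ) = -(f.natDegree : ℤ) + -(g.natDegree : ℤ)
    rw [Polynomial.natDegree_mul hf hg]
    push_cast
    ring
  · change (((f * g).rootMultiplicity a : ℕ) : ℤ) =
      (f.rootMultiplicity a : ℤ) + (g.rootMultiplicity a : ℤ)
    rw [Polynomial.rootMultiplicity_mul (mul_ne_zero hf hg)]
    push_cast
    rfl

theorem ord_C {c : ℂ} (a : Option ℂ) : ord (Polynomial.C c) a = 0 := by
  rcases a with _ | a
  · change -(((Polynomial.C c).natDegree : ℕ) : ℤ) = 0
    rw [Polynomial.natDegree_C]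
    rfl
  · change (((Polynomial.C c).rootMultiplicity a : ℕ) : ℤ) = 0
    rw [Polynomial.rootMultiplicity_C]
    rfl

theorem ord_pow {f : Polynomial ℂ} (hf : f ≠ 0) (k : ℕ) (a : Option ℂ) :
    ord (f ^ k) a = k * ord f a := by
  induction k with
  | zero =>
    have h := ord_C (c := 1) a
    rw [Polynomial.C_1] at h
    rw [pow_zero, h]
    simp
  | succ k ih =>
    rw [pow_succ, ord_mul (pow_ne_zero _ hf) hf, ih]
    push_cast
    ring

theorem ord_prod {ι : Type} (s : Finset ι) (f : ι → Polynomial ℂ) (hf : ∀ i ∈ s, f i ≠ 0)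
    (a : Option ℂ) : ord (∏ i ∈ s, f i) a = ∑ i ∈ s, ord (f i) a := by
  classical
  induction s using Finset.induction_on with
  | empty =>
    have h := ord_C (c := 1) a
    rw [Polynomial.C_1] at h
    rw [Finset.prod_empty, Finset.sum_empty, h]
  | insert i s hi ih =>
    rw [Finset.prod_insert hi, Finset.sum_insert hi,
      ord_mul (hf i (Finset.mem_insert_self i s))
        (Finset.prod_ne_zero_iff.2 fun j hj => hf j (Finset.mem_insert_of_mem hj)),
      ih fun j hj => hf j (Finset.mem_insert_of_mem hj)]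

/-- The lattice orthogonal to a linear subspace of `ℚ^n`. -/
def orth {n : ℕ} (L : Submodule ℚ (Fin n → ℚ)) : Submodule ℤ (Fin n → ℤ) where
  carrier := {a | ∀ w ∈ L, ∑ i, (a i : ℚ) * w i = 0}
  zero_mem' := fun w _ => by simp
  add_mem' := fun {a b} ha hb w hw => by
    have h1 : ∑ i, (((a + b) i : ℤ) : ℚ) * w i =
        ∑ i, (a i : ℚ) * w i + ∑ i, (b i : ℚ) * w i := by
      rw [← Finset.sum_add_distrib]
      refine Finset.sum_congr rfl fun i _ => ?_
      rw [Pi.add_apply]
      push_cast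
      ring
    rw [h1, ha w hw, hb w hw, add_zero]
  smul_mem' := fun c a ha w hw => by
    have h1 : ∑ i, (((c • a) i : ℤ) : ℚ) * w i = c * ∑ i, (a i : ℚ) * w i := by
      rw [Finset.mul_sum]
      refine Finset.sum_congr rfl fun i _ => ?_
      rw [Pi.smul_apply, smul_eq_mul]
      push_cast
      ring
    rw [h1, ha w hw, mul_zero]

theorem perp_orth_le {n : ℕ} (L : Submodule ℚ (Fin n → ℚ)) :
    Pool.Agent.Y199.ZF.perp (orth L) ≤ L := by
  classical
  intro w hw
  by_contra hwL
  obtain ⟨f, hfw, hf⟩ := Submodule.exists_dual_map_eq_bot_of_notMem hwL inferInstance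
  have hfL : ∀ x ∈ L, f x = 0 := by
    intro x hx
    have : f x ∈ L.map f := ⟨x, hx, rfl⟩
    rw [hf] at this
    exact this
  set c : Fin n → ℚ := fun i => f (Pi.single i 1) with hc
  have hfc : ∀ x : Fin n → ℚ, f x = ∑ i, c i * x i := by
    intro x
    conv_lhs => rw [pi_eq_sum_univ' x]
    rw [map_sum]
    refine Finset.sum_congr rfl fun i _ => ?_
    rw [map_smul, smul_eq_mul, mul_comm]
  -- a common denominator
  set D : ℕ := ∏ i, (c i).den with hD
  have hD0 : D ≠ 0 := Finset.prod_ne_zero_iff.2 fun i _ => (c i).den_nz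
  have hint : ∀ i, ∃ z : ℤ, (z : ℚ) = D * c i := by
    intro i
    have h1 : (c i).den ∣ D := Finset.dvd_prod_of_mem (fun i => (c i).den) (Finset.mem_univ i)
    obtain ⟨k, hk⟩ := h1
    refine ⟨k * (c i).num, ?_⟩
    have h2 := Rat.mul_den_eq_num (c i)
    rw [hk]
    push_cast
    rw [← h2]
    ring
  choose z hz using hint
  have hzL : z ∈ orth L := by
    intro x hx
    have h1 : ∑ i, (z i : ℚ) * x i = D * ∑ i, c i * x i := by
      rw [Finset.mul_sum]
      refine Finset.sum_congr rfl fun i _ => ?_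
      rw [hz]
      ring
    rw [h1, ← hfc, hfL x hx, mul_zero]
  have h2 := hw z hzL
  have h1 : ∑ i, (z i : ℚ) * w i = D * ∑ i, c i * w i := by
    rw [Finset.mul_sum]
    refine Finset.sum_congr rfl fun i _ => ?_
    rw [hz]
    ring
  rw [h1, ← hfc, mul_eq_zero] at h2
  rcases h2 with h2 | h2
  · exact hD0 (by exact_mod_cast h2)
  · exact hfw h2

theorem le_finrank_orth {n : ℕ} (L : Submodule ℚ (Fin n → ℚ)) :
    n ≤ Module.finrank ℤ (orth L) + Module.finrank ℚ L := by
  have h1 := Pool.Agent.Y199.ZF.finrank_perp (orth L)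
  have h2 := Submodule.finrank_mono (perp_orth_le L)
  omega

end Pool.Agent.V7H20.ZT
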